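import Mathlib

/-!
# The isomorphism `M ⊗[S] (S ⊗[R] A) ≃ M ⊗[R] A` for noncommutative `A`
-/

set_option autoImplicit false

namespace Pool.Agent.Helper47.BR

open TensorProduct

/-- cancellation, `A` any algebra -/
noncomputable def cancelAlg (R S M A : Type) [CommRing R] [CommRing S] [Algebra R S] [CommRing M]
    [Algebra R M] [Algebra S M] [IsScalarTower R S M] [Ring A] [Algebra R A] :
    M ⊗[S] (S ⊗[R] A) ≃ₐ[M] M ⊗[R] A :=
  AlgEquiv.symm <| AlgEquiv.ofLinearEquiv
    (TensorProduct.AlgebraTensorModule.cancelBaseChange R S M M A).symm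
    (by simp [Algebra.TensorProduct.one_def]) <|
      LinearMap.map_mul_of_map_mul_tmul (fun _ _ _ _ ↦ by simp)

end Pool.Agent.Helper47.BR
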