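import Pool.Agent.Helper65.TW.Basic
import Pool.Agent.Helper47.BR.EA2
import Pool.Agent.Helper47.TW.Cancel

/-!
# TOWERS, T6b: splitting the algebras at the sieve points
-/

set_option autoImplicit false

namespace Pool.Agent.Helper65.TW

open NumberField Pool.Agent.Helper4.CB Pool.Agent.Helper69.CB TensorProduct IsDedekindDomain
open Pool.Agent.Helper65.CL (Bad)
open Pool.Agent.Helper35.BR (Over)

/-- the algebra at a point at which `x` does not vanish -/
theorem rep_loc {R A : Type} [CommRing R] [IsDomain R] [Ring A] [Algebra R A] (x : R) (hx : x ≠ 0)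
    (haz : IsAzumaya (Localization.Away x) (Localization.Away x ⊗[R] A)) (m : ℕ) (hm0 : 0 < m)
    (hm : Module.finrank (FractionRing R) (FractionRing R ⊗[R] A) = m ^ 2) :
    ∃ G : Finset R, ∀ (M : Type) [Field M] [NumberField M] [Algebra R M], algebraMap R M x ≠ 0 →
      (IsSimpleRing (M ⊗[R] A) ∧ Algebra.IsCentral M (M ⊗[R] A) ∧
        Module.finrank M (M ⊗[R] A) = m ^ 2) ∧
      ∀ p : Pl M, vl p (algebraMap R M x) = 1 → (∀ g ∈ G, vl p (algebraMap R M g) ≤ 1) →
        Nonempty ((M ⊗[R] A) →ₐ[M] Matrix (Fin m) (Fin m) (p.adicCompletion M)) := by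
  classical
  have hdom : IsDomain (Localization.Away x) :=
    IsLocalization.isDomain_localization (powers_le_nonZeroDivisors_of_noZeroDivisors hx)
  -- the fraction field of `R` as an algebra over the localisation
  have hxF : IsUnit (algebraMap R (FractionRing R) x) := by
    rw [isUnit_iff_ne_zero, Ne, map_eq_zero_iff _ (IsFractionRing.injective R (FractionRing R))]
    exact hx
  let aF : Algebra (Localization.Away x) (FractionRing R) :=
    (IsLocalization.Away.lift x hxF).toAlgebra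
  have tF : IsScalarTower R (Localization.Away x) (FractionRing R) :=
    IsScalarTower.of_algebraMap_eq fun r => (IsLocalization.Away.lift_eq x hxF r).symm
  have hrk : Module.finrank (FractionRing (Localization.Away x))
      (FractionRing (Localization.Away x) ⊗[Localization.Away x]
        (Localization.Away x ⊗[R] A)) = m ^ 2 := by
    rw [Pool.Agent.Helper47.BR.finrank_point (R := Localization.Away x)
      (A := Localization.Away x ⊗[R] A) (FractionRing (Localization.Away x)) (FractionRing R), ← hm]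
    exact (TensorProduct.AlgebraTensorModule.cancelBaseChange R (Localization.Away x)
      (FractionRing R) (FractionRing R) A).finrank_eq
  obtain ⟨G, hG⟩ := Pool.Agent.Helper28.BR.exists_good (A := Localization.Away x ⊗[R] A) m hm0 hrk
  choose k a hka using fun g : Localization.Away x => IsLocalization.Away.surj x g
  refine ⟨G.image a, fun M _ _ _ hxM => ?_⟩
  have hxu : IsUnit (algebraMap R M x) := isUnit_iff_ne_zero.2 hxM
  let aM : Algebra (Localization.Away x) M := (IsLocalization.Away.lift x hxu).toAlgebra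
  have tM : IsScalarTower R (Localization.Away x) M :=
    IsScalarTower.of_algebraMap_eq fun r => (IsLocalization.Away.lift_eq x hxu r).symm
  let e : M ⊗[Localization.Away x] (Localization.Away x ⊗[R] A) ≃ₐ[M] M ⊗[R] A :=
    Pool.Agent.Helper47.BR.cancelAlg R (Localization.Away x) M A
  obtain ⟨hs, hc, hd⟩ := Pool.Agent.Helper28.BR.spec_cs (A := Localization.Away x ⊗[R] A) m hm0
    hrk M
  refine ⟨⟨IsSimpleRing.of_ringEquiv e.toRingEquiv hs, Algebra.IsCentral.of_algEquiv M _ _ e,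
    by rw [← hd]; exact e.toLinearEquiv.finrank_eq.symm⟩, fun p hp1 hp => ?_⟩
  obtain ⟨ρ⟩ := hG M p (by
    intro g hg
    have h1 := congrArg (algebraMap (Localization.Away x) M) (hka g)
    rw [map_mul, map_pow, ← IsScalarTower.algebraMap_apply R (Localization.Away x) M,
      ← IsScalarTower.algebraMap_apply R (Localization.Away x) M] at h1
    have h2 := hp _ (Finset.mem_image_of_mem a hg)
    rw [← h1] at h2
    have h3 : vl p (algebraMap (Localization.Away x) M g * algebraMap R M x ^ k g) =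
        vl p (algebraMap (Localization.Away x) M g) * vl p (algebraMap R M x) ^ k g := by
      have h5 : vl p (algebraMap R M x ^ k g) = vl p (algebraMap R M x) ^ k g :=
        map_pow (p.valuation M) _ _
      rw [← h5]
      exact map_mul (p.valuation M) _ _
    rw [h3, hp1, one_pow, mul_one] at h2
    exact h2)
  exact ⟨ρ.comp e.symm.toAlgHom⟩

/-- **T6b** splitting away from `t` -/
theorem split_points {K M R : Type} [Field K] [Field M] [NumberField M] [Algebra K M] [CommRing R]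
    [IsDomain R] [Algebra K R] {Λ : Finset ℕ} (hΛ : ∀ l ∈ Λ, l.Prime) {t : Ideal R}
    (h : SUM K M R Λ t) (ht : t ≠ ⊥) {r : ℕ}
    (A : Fin r → Type) [∀ i, Ring (A i)] [∀ i, Algebra R (A i)]
    (m : Fin r → ℕ) (hm0 : ∀ i, 0 < m i)
    (haz : ∀ i, ∀ x ∈ t, x ≠ 0 →
      IsAzumaya (Localization.Away x) (Localization.Away x ⊗[R] A i))
    (hm : ∀ i, Module.finrank (FractionRing R) (FractionRing R ⊗[R] A i) = m i ^ 2)
    (hmΛ : ∀ i, ∀ l : ℕ, l.Prime → l ∣ m i → l ∈ Λ)
    (hζ : ∀ l ∈ Λ, ∃ ζ : M, IsPrimitiveRoot ζ l) (h4 : ∃ i : M, IsPrimitiveRoot i 4)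
    (G τ : Finset R) (hτ : Ideal.span (τ : Set R) = t) :
    ∃ (J : ℕ) (L : Type) (_ : Field L) (_ : NumberField L) (_ : Algebra M L) (_ : Algebra K L)
      (_ : IsScalarTower K M L), ∀ f : R, f ≠ 0 → ∃ φ : R →ₐ[K] M, φ f ≠ 0 ∧
        (∀ p : Pl M, Bad Λ J p → (∀ g ∈ G, vl p (φ g) ≤ 1) ∧ ∃ x ∈ τ, vl p (φ x) = 1) ∧
        ∀ i, ∃ ρ : A i →+* Matrix (Fin (m i)) (Fin (m i)) L,
          Over ((algebraMap M L).comp (φ : R →+* M)) ρ := by
  classical
  -- a nonzero element of `τ`
  obtain ⟨x0, hx0τ, hx0⟩ : ∃ x ∈ τ, x ≠ 0 := by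
    by_contra hne
    push Not at hne
    apply ht
    rw [← hτ, Ideal.span_eq_bot]
    exact fun x hx => hne x (Finset.mem_coe.1 hx)
  have hτt : ∀ x ∈ τ, x ∈ t := by
    intro x hx
    rw [← hτ]
    exact Ideal.subset_span (Finset.mem_coe.2 hx)
  -- the finite sets of the pieces
  have hloc : ∀ (i : Fin r) (x : R), ∃ Gx : Finset R, x ∈ τ → x ≠ 0 →
      ∀ (M : Type) [Field M] [NumberField M] [Algebra R M], algebraMap R M x ≠ 0 →
      (IsSimpleRing (M ⊗[R] A i) ∧ Algebra.IsCentral M (M ⊗[R] A i) ∧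
        Module.finrank M (M ⊗[R] A i) = m i ^ 2) ∧
      ∀ p : Pl M, vl p (algebraMap R M x) = 1 → (∀ g ∈ Gx, vl p (algebraMap R M g) ≤ 1) →
        Nonempty ((M ⊗[R] A i) →ₐ[M] Matrix (Fin (m i)) (Fin (m i)) (p.adicCompletion M)) := by
    intro i x
    by_cases hx : x ∈ τ ∧ x ≠ 0
    · obtain ⟨Gx, hGx⟩ := rep_loc x hx.2 (haz i x (hτt x hx.1) hx.2) (m i) (hm0 i) (hm i)
      exact ⟨Gx, fun _ _ => hGx⟩
    · exact ⟨∅, fun h1 h2 => absurd ⟨h1, h2⟩ hx⟩
  choose Gx hGx using hloc
  obtain ⟨J, hJ⟩ := SUM.strong hΛ h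
    (G ∪ Finset.univ.biUnion fun i => τ.biUnion fun x => Gx i x) τ 1
    (by rw [pow_one, hτ])
  replace hJ := hJ J le_rfl
  choose L' iL' nL' aL' hL' using fun i => Pool.Agent.Helper47.BR.alg_split M (m i) J (hm0 i)
    (fun l hl hlm => hζ l (hmΛ i l hl hlm)) (fun _ => h4)
  obtain ⟨L, iL, nL, aL, hL⟩ := Pool.Agent.Helper47.BR.exists_common M L'
  let aK : Algebra K L := ((algebraMap M L).comp (algebraMap K M)).toAlgebra
  have htow : IsScalarTower K M L := IsScalarTower.of_algebraMap_eq fun _ => rfl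
  refine ⟨J, L, iL, nL, aL, aK, htow, fun f hf => ?_⟩
  obtain ⟨φ, hφ, hφJ⟩ := hJ (f * x0) (mul_ne_zero hf hx0)
  have hφf : φ f ≠ 0 := fun h0 => hφ (by rw [map_mul, h0, zero_mul])
  have hφx : φ x0 ≠ 0 := fun h0 => hφ (by rw [map_mul, h0, mul_zero])
  let aRM : Algebra R M := (φ : R →+* M).toAlgebra
  refine ⟨φ, hφf, fun p hp => ⟨fun g hg => (hφJ p hp).1 g (Finset.mem_union_left _ hg),
    (hφJ p hp).2⟩, fun i => ?_⟩
  obtain ⟨⟨hs, hc, hd⟩, -⟩ := hGx i x0 hx0τ hx0 M hφx
  have h2 : Module.Finite M (M ⊗[R] A i) := by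
    apply Module.finite_of_finrank_pos
    rw [hd]
    exact pow_pos (hm0 i) 2
  obtain ⟨ρ⟩ := hL' i (M ⊗[R] A i) hd (by
    intro p hp
    have hpΛ : Bad Λ J p := by
      obtain ⟨l, hl, hl'⟩ := hp
      exact ⟨l, hmΛ i l (Nat.prime_of_mem_primeFactors hl) (Nat.dvd_of_mem_primeFactors hl), hl'⟩
    obtain ⟨hp1, x, hxτ, hx1⟩ := hφJ p hpΛ
    have hxM : algebraMap R M x ≠ 0 := by
      intro h0
      have h1 : vl p (φ x) = 1 := hx1
      have h3 : φ x = 0 := h0
      rw [h3] at h1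
      have h4 : vl p (0 : M) = 0 := map_zero (p.valuation M)
      rw [h4] at h1
      exact zero_ne_one h1
    have hx0' : x ≠ 0 := by
      rintro rfl
      exact hxM (map_zero _)
    exact (hGx i x hxτ hx0' M hxM).2 p hx1 fun g hg => hp1 g (Finset.mem_union_right _
      (Finset.mem_biUnion.2 ⟨i, Finset.mem_univ i, Finset.mem_biUnion.2 ⟨x, hxτ, hg⟩⟩)))
  obtain ⟨ι⟩ := hL i
  let ρ' : (M ⊗[R] A i) →ₐ[M] Matrix (Fin (m i)) (Fin (m i)) L := (ι.mapMatrix).comp ρ
  refine ⟨(ρ' : (M ⊗[R] A i) →+* _).comp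
    (Algebra.TensorProduct.includeRight : A i →ₐ[R] M ⊗[R] A i), ?_⟩
  intro c
  have h5 : (Algebra.TensorProduct.includeRight : A i →ₐ[R] M ⊗[R] A i) (algebraMap R (A i) c) =
      algebraMap M (M ⊗[R] A i) (φ c) := by
    rw [AlgHom.commutes]
    rfl
  change ρ' ((Algebra.TensorProduct.includeRight : A i →ₐ[R] M ⊗[R] A i)
    (algebraMap R (A i) c)) = _
  rw [h5, AlgHom.commutes]
  rfl

end Pool.Agent.Helper65.TW
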